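import Pool.Agent.Helper56.RZ.GoalsD

/-!
# MP_f32c9c_an, project RZ, packet LC: the local functional
-/

set_option autoImplicit false

open Set Filter Topology

open scoped ContDiff

namespace Pool.Agent.Helper87.RZ

open Pool.Agent.Helper56.RZ

/-! ### algebra -/

section alg

variable {A : Type*} [Ring A]

/-- the exact solution -/
theorem exact_G (P : Fin 3 → A) (q Y : A) (hP : ∀ i j, P i * P j = if i = j then P i else 0)
    (hY : (P 2 * q * P 2 + 1 - P 2) * Y = 1) :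
    (P 1 - P 2 * Y * (P 2 * q * P 1)) * P 1 = P 1 - P 2 * Y * (P 2 * q * P 1) ∧
    P 1 * (P 1 - P 2 * Y * (P 2 * q * P 1)) = P 1 ∧
    P 0 * (P 1 - P 2 * Y * (P 2 * q * P 1)) = 0 ∧
    P 2 * (q * (P 1 - P 2 * Y * (P 2 * q * P 1))) = 0 := by
  have h11 : P 1 * P 1 = P 1 := by simpa using hP 1 1
  have h22 : P 2 * P 2 = P 2 := by simpa using hP 2 2
  have h12 : P 1 * P 2 = 0 := by simpa using hP 1 2
  have h01 : P 0 * P 1 = 0 := by simpa using hP 0 1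
  have h02 : P 0 * P 2 = 0 := by simpa using hP 0 2
  refine ⟨?_, ?_, ?_, ?_⟩
  · rw [sub_mul, h11]
    congr 1
    rw [mul_assoc, mul_assoc (P 2 * q), h11]
  · rw [mul_sub, h11, mul_assoc (P 2) Y, ← mul_assoc (P 1) (P 2), h12, zero_mul, sub_zero]
  · rw [mul_sub, h01, mul_assoc (P 2) Y, ← mul_assoc (P 0) (P 2), h02, zero_mul, sub_zero]
  · have h1 : P 2 * (P 2 * q * P 2 + 1 - P 2) = P 2 * q * P 2 := by
      rw [mul_sub, mul_add, ← mul_assoc, ← mul_assoc, h22, mul_one, add_sub_cancel_right]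
    have h2 : P 2 * q * P 2 * Y = P 2 := by
      rw [← h1, mul_assoc, hY, mul_one]
    calc P 2 * (q * (P 1 - P 2 * Y * (P 2 * q * P 1)))
        = P 2 * q * P 1 - (P 2 * q * P 2 * Y) * P 2 * q * P 1 := by noncomm_ring
      _ = 0 := by rw [h2, h22, sub_self]

theorem diff_id (p g' q g h g0 : A) :
    p * g' * q * g - p - (p * h * q * g0 - p) = (p * (g' - h)) * q * g + p * h * (q * (g - g0)) := by
  simp only [mul_sub, sub_mul, mul_assoc]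
  abel

end alg

/-! ### norms -/

variable {K : ℕ}

theorem one_le' : ‖(1 : End K)‖ ≤ 1 := ContinuousLinearMap.norm_id_le

theorem nm {a b : End K} {x y : ℝ} (ha : ‖a‖ ≤ x) (hb : ‖b‖ ≤ y) (hx : 0 ≤ x) : ‖a * b‖ ≤ x * y :=
  (norm_mul_le a b).trans (mul_le_mul ha hb (norm_nonneg _) hx)

theorem inv_near (t : End K) (ht : ‖t‖ ≤ 1 / 2) :
    ∃ Y : End K, Y * (1 + t) = 1 ∧ (1 + t) * Y = 1 ∧ ‖Y‖ ≤ 2 := by
  have h1 : ‖-t‖ < 1 := by rw [norm_neg]; linarith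
  have hu : IsUnit (1 + t) := by
    have h := isUnit_one_sub_of_norm_lt_one h1
    rwa [sub_neg_eq_add] at h
  obtain ⟨w, hw⟩ := hu
  refine ⟨((w⁻¹ : (End K)ˣ) : End K), ?_, ?_, ?_⟩
  · rw [← hw]; exact w.inv_mul
  · rw [← hw]; exact w.mul_inv
  · have h2 : ((w⁻¹ : (End K)ˣ) : End K) * (1 + t) = 1 := by rw [← hw]; exact w.inv_mul
    set Y := ((w⁻¹ : (End K)ˣ) : End K)
    have h3 : Y = 1 - Y * t := by
      rw [eq_sub_iff_add_eq, ← h2, mul_add, mul_one]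
    have h4 : ‖Y‖ ≤ 1 + ‖Y‖ * (1 / 2) := by
      calc ‖Y‖ = ‖1 - Y * t‖ := by rw [← h3]
        _ ≤ ‖(1 : End K)‖ + ‖Y * t‖ := norm_sub_le _ _
        _ ≤ 1 + ‖Y‖ * (1 / 2) :=
          add_le_add one_le' (nm le_rfl ht (norm_nonneg _))
    linarith

theorem dt_mul (a b : End K) : dt (a * b) = dt a * dt b := by
  unfold dt
  exact map_mul (LinearMap.det : (E K →ₗ[ℝ] E K) →* ℝ) (a : E K →ₗ[ℝ] E K) (b : E K →ₗ[ℝ] E K)

theorem dt_one : dt (1 : End K) = 1 := by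
  unfold dt
  exact LinearMap.det_id

theorem dt_ne {a b : End K} (h : a * b = 1) : dt a ≠ 0 := by
  intro h0
  have h1 : dt (a * b) = 1 := by rw [h, dt_one]
  rw [dt_mul, h0, zero_mul] at h1
  exact zero_ne_one h1

/-- `log |det|` is Lipschitz at `1`. -/
theorem lip (hLD : StmtLD) (K : ℕ) : ∃ c δ : ℝ, 0 ≤ c ∧ 0 < δ ∧ ∀ V : End K, ‖V‖ ≤ δ →
    |Real.log (|dt (1 + V)|)| ≤ c * ‖V‖ := by
  obtain ⟨c, δ, hδ, h⟩ := hLD K
  let L : End K →ₗ[ℝ] ℝ :=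
    { toFun := fun Z => LinearMap.trace ℝ (E K) (Z : E K →ₗ[ℝ] E K)
      map_add' := fun a b => by
        have h1 : ((a + b : End K) : E K →ₗ[ℝ] E K) = (a : E K →ₗ[ℝ] E K) + b := rfl
        rw [h1, map_add]
      map_smul' := fun r a => by
        have h1 : ((r • a : End K) : E K →ₗ[ℝ] E K) = r • (a : E K →ₗ[ℝ] E K) := rfl
        rw [h1, map_smul]
        rfl }
  let Lc : End K →L[ℝ] ℝ := LinearMap.toContinuousLinearMap L
  have hL : ∀ V : End K, |LinearMap.trace ℝ (E K) (V : E K →ₗ[ℝ] E K)| ≤ ‖Lc‖ * ‖V‖ := by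
    intro V
    exact Lc.le_opNorm V
  refine ⟨|c| + ‖Lc‖, min δ 1, by positivity, by positivity, fun V hV => ?_⟩
  have h1 := h V (hV.trans (min_le_left _ _))
  have h2 := hL V
  have h3 : ‖V‖ ≤ 1 := hV.trans (min_le_right _ _)
  have h4 : c * ‖V‖ ^ 2 ≤ |c| * ‖V‖ := by
    have : ‖V‖ ^ 2 ≤ ‖V‖ := by nlinarith [norm_nonneg V]
    calc c * ‖V‖ ^ 2 ≤ |c| * ‖V‖ ^ 2 := mul_le_mul_of_nonneg_right (le_abs_self c) (by positivity)
      _ ≤ |c| * ‖V‖ := mul_le_mul_of_nonneg_left this (abs_nonneg c)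
  change |Real.log (|LinearMap.det ((1 + V : End K) : E K →ₗ[ℝ] E K)|)| ≤ _
  set x := Real.log (|LinearMap.det ((1 + V : End K) : E K →ₗ[ℝ] E K)|)
  set y := LinearMap.trace ℝ (E K) (V : E K →ₗ[ℝ] E K)
  calc |x| = |(x - y) + y| := by ring_nf
    _ ≤ |x - y| + |y| := abs_add_le _ _
    _ ≤ (|c| + ‖Lc‖) * ‖V‖ := by linarith

/-- the exact solution `G₀` and the difference `u = G - G₀` (constants). -/
theorem part (P Q : Fin 3 → End K) (G : End K) (κ e R : ℝ) (hP : Proj3 P)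
    (hQ : Proj3 Q) (hR : 1 ≤ R) (hPR : ∀ i, ‖P i‖ ≤ R) (hQR : ∀ i, ‖Q i‖ ≤ R)
    (hκ : ∀ i, ‖Q i - P i‖ ≤ κ) (hκ2 : κ ≤ 1 / 2) (hκR : R ^ 2 * κ ≤ 1 / 2) (he : 0 ≤ e)
    (h1 : G * P 1 = G) (h2 : P 1 * G = P 1) (h3 : ‖P 0 * G‖ ≤ e) (h4 : ‖Q 2 * G‖ ≤ e) :
    ∃ G0 : End K, G0 * P 1 = G0 ∧ P 1 * G0 = P 1 ∧ P 0 * G0 = 0 ∧ Q 2 * G0 = 0 ∧
      ‖G0 - P 1‖ ≤ 2 * R ^ 3 * κ ∧ ‖G - G0‖ ≤ (2 * R + 3) * e ∧
      ‖Q 1 * (G - G0)‖ ≤ κ * ((2 * R + 3) * e) ∧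
      (∃ Y : End K, (P 2 * Q 2 * P 2 + 1 - P 2) * Y = 1) := by
  have hκ0 : 0 ≤ κ := (norm_nonneg _).trans (hκ 0)
  have hR0 : 0 ≤ R := by linarith
  have h11 : P 1 * P 1 = P 1 := by simpa using hP.proj 1 1
  have h22 : P 2 * P 2 = P 2 := by simpa using hP.proj 2 2
  have h21 : P 2 * P 1 = 0 := by simpa using hP.proj 2 1
  have q22 : Q 2 * Q 2 = Q 2 := by simpa using hQ.proj 2 2
  have ht : ‖P 2 * (Q 2 - P 2) * P 2‖ ≤ 1 / 2 := by
    have := nm (nm (hPR 2) (hκ 2) hR0) (hPR 2) (by positivity)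
    calc _ ≤ R * κ * R := this
      _ = R ^ 2 * κ := by ring
      _ ≤ 1 / 2 := hκR
  obtain ⟨Y, hY1, hY2, hY⟩ := inv_near _ ht
  have hB : 1 + P 2 * (Q 2 - P 2) * P 2 = P 2 * Q 2 * P 2 + 1 - P 2 := by
    rw [mul_sub, sub_mul, h22, h22]
    abel
  rw [hB] at hY2
  obtain ⟨g1, g2, g3, g4⟩ := exact_G P (Q 2) Y hP.proj hY2
  set G0 := P 1 - P 2 * Y * (P 2 * Q 2 * P 1) with hG0
  have g5 : Q 2 * G0 = 0 := by
    have e1 : Q 2 * G0 = (Q 2 - P 2) * (Q 2 * G0) := by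
      rw [sub_mul, g4, sub_zero, ← mul_assoc, q22]
    have e2 : ‖Q 2 * G0‖ ≤ κ * ‖Q 2 * G0‖ := by
      calc ‖Q 2 * G0‖ = ‖(Q 2 - P 2) * (Q 2 * G0)‖ := by rw [← e1]
        _ ≤ κ * ‖Q 2 * G0‖ := nm (hκ 2) le_rfl hκ0
    have e3 : ‖Q 2 * G0‖ ≤ 0 := by nlinarith [norm_nonneg (Q 2 * G0)]
    exact norm_le_zero_iff.1 e3
  have g6 : ‖G0 - P 1‖ ≤ 2 * R ^ 3 * κ := by
    have e1 : G0 - P 1 = -(P 2 * Y * (P 2 * (Q 2 - P 2) * P 1)) := by
      rw [hG0, mul_sub (P 2) (Q 2), sub_mul, h22, h21, sub_zero]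
      abel
    rw [e1, norm_neg]
    calc _ ≤ R * 2 * (R * κ * R) :=
          nm (nm (hPR 2) hY hR0) (nm (nm (hPR 2) (hκ 2) hR0) (hPR 1) (by positivity))
            (by positivity)
      _ = 2 * R ^ 3 * κ := by ring
  set u := G - G0 with hu
  have u1 : P 1 * u = 0 := by rw [hu, mul_sub, h2, g2, sub_self]
  have u0 : P 0 * u = P 0 * G := by rw [hu, mul_sub, g3, sub_zero]
  have uq : Q 2 * u = Q 2 * G := by rw [hu, mul_sub, g5, sub_zero]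
  have us : u = P 0 * u + P 2 * u := by
    calc u = (P 0 + P 1 + P 2) * u := by rw [hP.sum, one_mul]
      _ = P 0 * u + P 2 * u := by rw [add_mul, add_mul, u1, add_zero]
  have u2 : Q 2 * (P 2 * u) = Q 2 * G - Q 2 * (P 0 * G) := by
    have e1 : P 2 * u = u - P 0 * u := by rw [eq_sub_iff_add_eq, add_comm]; exact us.symm
    rw [e1, mul_sub, uq, u0]
  have n2 : ‖P 2 * u‖ ≤ 2 * (1 + R) * e := by
    have e1 : P 2 * u = -((Q 2 - P 2) * (P 2 * u)) + (Q 2 * G - Q 2 * (P 0 * G)) := by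
      rw [← u2, sub_mul, ← mul_assoc (P 2) (P 2), h22]
      abel
    have e2 : ‖P 2 * u‖ ≤ κ * ‖P 2 * u‖ + (e + R * e) := by
      calc ‖P 2 * u‖ = ‖-((Q 2 - P 2) * (P 2 * u)) + (Q 2 * G - Q 2 * (P 0 * G))‖ := by
            rw [← e1]
        _ ≤ ‖-((Q 2 - P 2) * (P 2 * u))‖ + ‖Q 2 * G - Q 2 * (P 0 * G)‖ := norm_add_le _ _
        _ ≤ κ * ‖P 2 * u‖ + (e + R * e) := by
          rw [norm_neg]
          exact add_le_add (nm (hκ 2) le_rfl hκ0)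
            ((norm_sub_le _ _).trans (add_le_add h4 (nm (hQR 2) h3 hR0)))
    nlinarith [norm_nonneg (P 2 * u)]
  have nu : ‖u‖ ≤ (2 * R + 3) * e := by
    calc ‖u‖ = ‖P 0 * G + P 2 * u‖ := by rw [← u0, ← us]
      _ ≤ ‖P 0 * G‖ + ‖P 2 * u‖ := norm_add_le _ _
      _ ≤ e + 2 * (1 + R) * e := add_le_add h3 n2
      _ = (2 * R + 3) * e := by ring
  refine ⟨G0, g1, g2, g3, g5, g6, nu, ?_, Y, hY2⟩
  have e1 : Q 1 * u = (Q 1 - P 1) * u := by rw [sub_mul, u1, sub_zero]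
  rw [e1]
  exact nm (hκ 1) nu hκ0

/-- the statement for complementary projections. -/
theorem lc1 (hDT : StmtDT) (hLD : StmtLD) (K : ℕ) (R : ℝ) (hR : 1 ≤ R) :
    ∃ c δ : ℝ, 1 ≤ c ∧ 0 < δ ∧ δ ≤ 1 ∧
    ∀ (P Q : Fin 3 → End K) (G G' : End K) (κ e : ℝ), Proj3 P → Proj3 Q →
    (∀ i, ‖P i‖ ≤ R) → (∀ i, ‖Q i‖ ≤ R) → (∀ i, ‖Q i - P i‖ ≤ κ) → κ ≤ δ → 0 ≤ e → e ≤ δ →
    G * P 1 = G → P 1 * G = P 1 → ‖P 0 * G‖ ≤ e → ‖Q 2 * G‖ ≤ e →
    G' * Q 1 = G' → Q 1 * G' = Q 1 → ‖Q 0 * G'‖ ≤ e → ‖P 2 * G'‖ ≤ e →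
    |Real.log (|dt (1 + (P 1 * G' * Q 1 * G - P 1))|) - Ps P Q| ≤ c * κ * e := by
  obtain ⟨cT, δT, hcT, hδT, hLip⟩ := lip hLD K
  have hR0 : 0 ≤ R := by linarith
  have hRp : 0 < R := by linarith
  -- constants
  set C1 : ℝ := 2 * R + 3 with hC1
  set C2 : ℝ := R ^ 2 + 2 * R ^ 5 + 2 * R ^ 5 * (R + 1) with hC2
  set C3 : ℝ := C1 * R * (2 * R + 3) with hC3
  have hC1p : 0 < C1 := by positivity
  have hC2p : 0 < C2 := by positivity
  have hC3p : 0 < C3 := by positivity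
  set S : ℝ := 2 + 2 * R ^ 2 + 6 * R + 2 * R ^ 3 + C1 + 2 * C2 + 4 * C3 + 2 * C3 / δT with hS
  have hSp : 0 < S := by positivity
  have hS1 : 1 ≤ S := by
    have : 0 ≤ 2 * R ^ 2 + 6 * R + 2 * R ^ 3 + C1 + 2 * C2 + 4 * C3 + 2 * C3 / δT := by
      positivity
    rw [hS]; linarith
  have sm : ∀ (a x : ℝ), a ≤ S → 0 ≤ x → x ≤ S⁻¹ → a * x ≤ 1 := by
    intro a x ha hx0 hx
    calc a * x ≤ S * x := mul_le_mul_of_nonneg_right ha hx0
      _ ≤ S * S⁻¹ := mul_le_mul_of_nonneg_left hx hSp.le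
      _ = 1 := mul_inv_cancel₀ hSp.ne'
  have p1 : 0 ≤ 2 * R ^ 2 := by positivity
  have p2 : 0 ≤ 6 * R := by positivity
  have p3 : 0 ≤ 2 * R ^ 3 := by positivity
  have p4 : 0 ≤ 2 * C2 := by positivity
  have p5 : 0 ≤ 2 * C3 / δT := by positivity
  have p6 : 0 ≤ 4 * C3 := by positivity
  refine ⟨max 1 (cT * (2 * C3)), S⁻¹, le_max_left _ _, inv_pos.2 hSp, inv_le_one_of_one_le₀ hS1, ?_⟩
  intro P Q G G' κ e hP hQ hPR hQR hκ hκδ he heδ a1 a2 a3 a4 b1 b2 b3 b4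
  have hκ0 : 0 ≤ κ := (norm_nonneg _).trans (hκ 0)
  have k1 : 2 * κ ≤ 1 := sm 2 κ (by rw [hS]; linarith) hκ0 hκδ
  have k2 : 2 * R ^ 2 * κ ≤ 1 := sm _ κ (by rw [hS]; linarith) hκ0 hκδ
  have k3 : 6 * R * κ ≤ 1 := sm _ κ (by rw [hS]; linarith) hκ0 hκδ
  have k4 : 2 * R ^ 3 * κ ≤ 1 := sm _ κ (by rw [hS]; linarith) hκ0 hκδ
  have k5 : C1 * e ≤ 1 := sm _ e (by rw [hS]; linarith) he heδ
  have k6 : 2 * C2 * κ ≤ 1 := sm _ κ (by rw [hS]; linarith) hκ0 hκδ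
  have k7 : 2 * C3 / δT * κ ≤ 1 := sm _ κ (by rw [hS]; linarith) hκ0 hκδ
  have k8 : 4 * C3 * κ ≤ 1 := sm _ κ (by rw [hS]; linarith) hκ0 hκδ
  have he1 : e ≤ 1 := heδ.trans (inv_le_one_of_one_le₀ hS1)
  have hκ' : ∀ i, ‖P i - Q i‖ ≤ κ := fun i => by rw [norm_sub_rev]; exact hκ i
  -- the exact solutions
  obtain ⟨G0, g1, g2, g3, g4, g5, g6, g7, Y, hY⟩ := part P Q G κ e R hP hQ hR hPR hQR hκ
    (by linarith) (by linarith) he a1 a2 a3 a4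
  -- the second one: exchange the roles
  obtain ⟨H0, h1, h2, h3, h4, h5, h6, h7, _⟩ := part Q P G' κ e R hQ hP hR hQR hPR hκ'
    (by linarith) (by linarith) he b1 b2 b3 b4
  rw [← hC1] at g6 g7 h6 h7
  have p11 : P 1 * P 1 = P 1 := by simpa using hP.proj 1 1
  have q11 : Q 1 * Q 1 = Q 1 := by simpa using hQ.proj 1 1
  -- the norms of `G₀`, `G₀'`, `G`
  have nG0 : ‖G0‖ ≤ R + 1 := by
    calc ‖G0‖ = ‖P 1 + (G0 - P 1)‖ := by rw [add_sub_cancel]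
      _ ≤ ‖P 1‖ + ‖G0 - P 1‖ := norm_add_le _ _
      _ ≤ R + 1 := add_le_add (hPR 1) (g5.trans k4)
  have nH0 : ‖H0‖ ≤ R + 1 := by
    calc ‖H0‖ = ‖Q 1 + (H0 - Q 1)‖ := by rw [add_sub_cancel]
      _ ≤ ‖Q 1‖ + ‖H0 - Q 1‖ := norm_add_le _ _
      _ ≤ R + 1 := add_le_add (hQR 1) (h5.trans k4)
  have nG : ‖G‖ ≤ R + 2 := by
    calc ‖G‖ = ‖G0 + (G - G0)‖ := by rw [add_sub_cancel]
      _ ≤ ‖G0‖ + ‖G - G0‖ := norm_add_le _ _
      _ ≤ (R + 1) + 1 := add_le_add nG0 (g6.trans k5)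
      _ = R + 2 := by ring
  -- `Z` and `Z₀`
  set Z := P 1 * G' * Q 1 * G - P 1 with hZ
  set Z0 := P 1 * H0 * Q 1 * G0 - P 1 with hZ0
  have nZ0 : ‖Z0‖ ≤ C2 * κ := by
    have e1 : Z0 = P 1 * (Q 1 - P 1) * P 1 + P 1 * Q 1 * (G0 - P 1)
        + P 1 * (H0 - Q 1) * Q 1 * G0 := by
      have e2 : P 1 * (H0 - Q 1) * Q 1 * G0 = P 1 * H0 * Q 1 * G0 - P 1 * Q 1 * G0 := by
        rw [mul_sub, sub_mul, sub_mul, mul_assoc (P 1) (Q 1) (Q 1), q11]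
      have e3 : P 1 * (Q 1 - P 1) * P 1 = P 1 * Q 1 * P 1 - P 1 := by
        rw [mul_sub, sub_mul, p11, p11]
      rw [e2, e3, mul_sub, hZ0]
      abel
    rw [e1]
    have t1 : ‖P 1 * (Q 1 - P 1) * P 1‖ ≤ R * κ * R :=
      nm (nm (hPR 1) (hκ 1) hR0) (hPR 1) (by positivity)
    have t2 : ‖P 1 * Q 1 * (G0 - P 1)‖ ≤ R * R * (2 * R ^ 3 * κ) :=
      nm (nm (hPR 1) (hQR 1) hR0) g5 (by positivity)
    have t3 : ‖P 1 * (H0 - Q 1) * Q 1 * G0‖ ≤ R * (2 * R ^ 3 * κ) * R * (R + 1) :=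
      nm (nm (nm (hPR 1) h5 hR0) (hQR 1) (by positivity)) nG0 (by positivity)
    calc _ ≤ ‖P 1 * (Q 1 - P 1) * P 1 + P 1 * Q 1 * (G0 - P 1)‖
          + ‖P 1 * (H0 - Q 1) * Q 1 * G0‖ := norm_add_le _ _
      _ ≤ ‖P 1 * (Q 1 - P 1) * P 1‖ + ‖P 1 * Q 1 * (G0 - P 1)‖
          + ‖P 1 * (H0 - Q 1) * Q 1 * G0‖ := by gcongr; exact norm_add_le _ _
      _ ≤ R * κ * R + R * R * (2 * R ^ 3 * κ) + R * (2 * R ^ 3 * κ) * R * (R + 1) := by
        gcongr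
      _ = C2 * κ := by rw [hC2]; ring
  have nD : ‖Z - Z0‖ ≤ C3 * κ * e := by
    have e1 : Z - Z0 = (P 1 * (G' - H0)) * Q 1 * G + P 1 * H0 * (Q 1 * (G - G0)) := by
      rw [hZ, hZ0]
      exact diff_id _ _ _ _ _ _
    rw [e1]
    have t1 : ‖(P 1 * (G' - H0)) * Q 1 * G‖ ≤ κ * (C1 * e) * R * (R + 2) :=
      nm (nm h7 (hQR 1) (by positivity)) nG (by positivity)
    have t2 : ‖P 1 * H0 * (Q 1 * (G - G0))‖ ≤ R * (R + 1) * (κ * (C1 * e)) :=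
      nm (nm (hPR 1) nH0 hR0) g7 (by positivity)
    calc _ ≤ ‖(P 1 * (G' - H0)) * Q 1 * G‖ + ‖P 1 * H0 * (Q 1 * (G - G0))‖ := norm_add_le _ _
      _ ≤ κ * (C1 * e) * R * (R + 2) + R * (R + 1) * (κ * (C1 * e)) := add_le_add t1 t2
      _ = C3 * κ * e := by rw [hC3]; ring
  have nZ02 : ‖Z0‖ ≤ 1 / 2 := by linarith
  obtain ⟨W, hW1, hW2, hW⟩ := inv_near Z0 nZ02
  set V := W * (Z - Z0) with hV
  have nV : ‖V‖ ≤ 2 * (C3 * κ * e) := nm hW nD (by norm_num)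
  have eZ : 1 + Z = (1 + Z0) * (1 + V) := by
    rw [hV, mul_add (1 + Z0) 1, mul_one, ← mul_assoc, hW2, one_mul]
    abel
  have nV2 : ‖V‖ ≤ δT := by
    have e1 : 2 * C3 * κ ≤ δT := by
      have e2 : 2 * C3 / δT * κ = 2 * C3 * κ / δT := by ring
      rw [e2, div_le_one hδT] at k7
      exact k7
    calc ‖V‖ ≤ 2 * (C3 * κ * e) := nV
      _ = (2 * C3 * κ) * e := by ring
      _ ≤ (2 * C3 * κ) * 1 := mul_le_mul_of_nonneg_left he1 (by positivity)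
      _ ≤ δT := by rw [mul_one]; exact e1
  have hl := hLip V nV2
  have nV3 : ‖V‖ ≤ 1 / 2 := by
    calc ‖V‖ ≤ 2 * (C3 * κ * e) := nV
      _ = (4 * C3 * κ) * e / 2 := by ring
      _ ≤ 1 * 1 / 2 := by gcongr
      _ = 1 / 2 := by ring
  have dV : dt (1 + V) ≠ 0 := by
    obtain ⟨W', hW', _, _⟩ := inv_near V nV3
    intro h0
    have := dt_mul W' (1 + V)
    rw [hW', dt_one, h0, mul_zero] at this
    exact one_ne_zero this
  have dZ0 : dt (1 + Z0) ≠ 0 := dt_ne hW2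
  have dB : dt (P 2 * Q 2 * P 2 + 1 - P 2) ≠ 0 := dt_ne hY
  -- the determinant identity
  have hunit : IsUnit (Q 0 * P 0 + Q 1 * P 1 + Q 2 * P 2) := by
    set t := (Q 0 - P 0) * P 0 + (Q 1 - P 1) * P 1 + (Q 2 - P 2) * P 2 with ht
    have e1 : Q 0 * P 0 + Q 1 * P 1 + Q 2 * P 2 = 1 + t := by
      have p00 : P 0 * P 0 = P 0 := by simpa using hP.proj 0 0
      have p22 : P 2 * P 2 = P 2 := by simpa using hP.proj 2 2
      rw [ht, sub_mul, sub_mul, sub_mul, p00, p11, p22, ← hP.sum]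
      abel
    have e2 : ‖t‖ ≤ 1 / 2 := by
      calc ‖t‖ ≤ ‖(Q 0 - P 0) * P 0‖ + ‖(Q 1 - P 1) * P 1‖ + ‖(Q 2 - P 2) * P 2‖ :=
            norm_add₃_le
        _ ≤ κ * R + κ * R + κ * R :=
          add_le_add (add_le_add (nm (hκ 0) (hPR 0) hκ0) (nm (hκ 1) (hPR 1) hκ0))
            (nm (hκ 2) (hPR 2) hκ0)
        _ = 6 * R * κ / 2 := by ring
        _ ≤ 1 / 2 := by linarith
    obtain ⟨W', w1, w2, _⟩ := inv_near t e2
    rw [e1]
    exact ⟨⟨1 + t, W', w2, w1⟩, rfl⟩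
  have hdt := hDT K P Q G0 H0 hP hQ hunit g1 g2 g3 g4 h1 h2 h3 h4
  have eZ0 : P 1 * H0 * Q 1 * G0 + 1 - P 1 = 1 + Z0 := by
    rw [hZ0]; abel
  rw [eZ0] at hdt
  have hPs : Ps P Q = Real.log (|dt (1 + Z0)|) := by
    unfold Ps Ph
    rw [← hdt, abs_mul, Real.log_mul (abs_ne_zero.2 dZ0) (abs_ne_zero.2 dB)]
    ring
  rw [hPs, eZ, dt_mul, abs_mul, Real.log_mul (abs_ne_zero.2 dZ0) (abs_ne_zero.2 dV),
    add_sub_cancel_left]
  calc |Real.log (|dt (1 + V)|)| ≤ cT * ‖V‖ := hl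
    _ ≤ cT * (2 * (C3 * κ * e)) := mul_le_mul_of_nonneg_left nV hcT
    _ = (cT * (2 * C3)) * (κ * e) := by ring
    _ ≤ max 1 (cT * (2 * C3)) * (κ * e) :=
      mul_le_mul_of_nonneg_right (le_max_right _ _) (by positivity)
    _ = max 1 (cT * (2 * C3)) * κ * e := by ring

theorem lc (hDT : StmtDT) (hLD : StmtLD) : StmtLC := by
  intro K R
  obtain ⟨c, δ, hc, hδ, hδ1, h⟩ := lc1 hDT hLD K (4 * |R| + 2) (by
    have := abs_nonneg R
    linarith)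
  refine ⟨c, δ, hc, hδ, hδ1, ?_⟩
  intro P Q T G G' κ e hP hPT hQ hQT hPR hκ hκδ he heδ tg a1 a2 a3 a4 tg' b1 b2 b3 b4
  have hκ0 : 0 ≤ κ := (norm_nonneg _).trans (hκ 0)
  have hκ1 : κ ≤ 1 := hκδ.trans hδ1
  have hRR : R ≤ |R| := le_abs_self R
  have hRa : 0 ≤ |R| := abs_nonneg R
  set N : End K := 1 - T with hN
  have PT : ∀ i, P i * T = P i := by
    intro i
    rw [← hPT, mul_add, mul_add, hP, hP, hP]
    fin_cases i <;> simp
  have TP : ∀ i, T * P i = P i := by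
    intro i
    rw [← hPT, add_mul, add_mul, hP, hP, hP]
    fin_cases i <;> simp
  have QT : ∀ i, Q i * T = Q i := by
    intro i
    rw [← hQT, mul_add, mul_add, hQ, hQ, hQ]
    fin_cases i <;> simp
  have TQ : ∀ i, T * Q i = Q i := by
    intro i
    rw [← hQT, add_mul, add_mul, hQ, hQ, hQ]
    fin_cases i <;> simp
  have TT : T * T = T := by
    calc T * T = T * (P 0 + P 1 + P 2) := by rw [hPT]
      _ = P 0 + P 1 + P 2 := by rw [mul_add, mul_add, TP, TP, TP]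
      _ = T := hPT
  have NP : ∀ i, N * P i = 0 := fun i => by rw [hN, sub_mul, one_mul, TP, sub_self]
  have PN : ∀ i, P i * N = 0 := fun i => by rw [hN, mul_sub, mul_one, PT, sub_self]
  have NQ : ∀ i, N * Q i = 0 := fun i => by rw [hN, sub_mul, one_mul, TQ, sub_self]
  have QN : ∀ i, Q i * N = 0 := fun i => by rw [hN, mul_sub, mul_one, QT, sub_self]
  have NN' : N * N = N := by
    rw [hN, mul_sub, mul_one, sub_mul, one_mul, TT, sub_self, sub_zero]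
  have GN : G * N = 0 := by rw [← a1, mul_assoc, PN, mul_zero]
  have NG : N * G = 0 := by rw [hN, sub_mul, one_mul, tg, sub_self]
  have GN' : G' * N = 0 := by rw [← b1, mul_assoc, QN, mul_zero]
  have NG' : N * G' = 0 := by rw [hN, sub_mul, one_mul, tg', sub_self]
  let P' : Fin 3 → End K := ![P 0, P 1 + N, P 2]
  let Q' : Fin 3 → End K := ![Q 0, Q 1 + N, Q 2]
  have P0 : P' 0 = P 0 := rfl
  have P1 : P' 1 = P 1 + N := rfl
  have P2 : P' 2 = P 2 := rfl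
  have Q0 : Q' 0 = Q 0 := rfl
  have Q1 : Q' 1 = Q 1 + N := rfl
  have Q2 : Q' 2 = Q 2 := rfl
  have hP' : Proj3 P' := by
    refine ⟨?_, ?_⟩
    · intro i j
      fin_cases i <;> fin_cases j <;>
        simp [P', hP, mul_add, add_mul, NP, PN, NN']
    · rw [P0, P1, P2, hN, ← hPT]
      abel
  have hQ' : Proj3 Q' := by
    refine ⟨?_, ?_⟩
    · intro i j
      fin_cases i <;> fin_cases j <;>
        simp [Q', hQ, mul_add, add_mul, NQ, QN, NN']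
    · rw [Q0, Q1, Q2, hN, ← hQT]
      abel
  have nN : ‖N‖ ≤ 1 + 3 * |R| := by
    have e1 : N = 1 - (P 0 + P 1 + P 2) := by rw [hN, hPT]
    rw [e1]
    calc _ ≤ ‖(1 : End K)‖ + ‖P 0 + P 1 + P 2‖ := norm_sub_le _ _
      _ ≤ 1 + (‖P 0‖ + ‖P 1‖ + ‖P 2‖) := add_le_add one_le' norm_add₃_le
      _ ≤ 1 + 3 * |R| := by
        have := hPR 0
        have := hPR 1
        have := hPR 2
        linarith
  have nP' : ∀ i, ‖P' i‖ ≤ 4 * |R| + 1 := by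
    intro i
    fin_cases i
    · change ‖P 0‖ ≤ _
      have := hPR 0
      linarith
    · change ‖P 1 + N‖ ≤ _
      have := norm_add_le (P 1) N
      have := hPR 1
      linarith
    · change ‖P 2‖ ≤ _
      have := hPR 2
      linarith
  have nd : ∀ i, ‖Q' i - P' i‖ ≤ κ := by
    intro i
    fin_cases i
    · exact hκ 0
    · change ‖Q 1 + N - (P 1 + N)‖ ≤ κ
      rw [add_sub_add_right_eq_sub]
      exact hκ 1
    · exact hκ 2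
  have nQ' : ∀ i, ‖Q' i‖ ≤ 4 * |R| + 2 := by
    intro i
    calc ‖Q' i‖ = ‖P' i + (Q' i - P' i)‖ := by rw [add_sub_cancel]
      _ ≤ ‖P' i‖ + ‖Q' i - P' i‖ := norm_add_le _ _
      _ ≤ (4 * |R| + 1) + 1 := add_le_add (nP' i) ((nd i).trans hκ1)
      _ = 4 * |R| + 2 := by ring
  have key := h P' Q' (G + N) (G' + N) κ e hP' hQ' (fun i => (nP' i).trans (by linarith)) nQ' nd
    hκδ he heδ
    (by rw [P1, mul_add, add_mul, add_mul, a1, GN, NP, NN']; abel)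
    (by rw [P1, mul_add, add_mul, add_mul, a2, PN, NG, NN']; abel)
    (by rw [P0, mul_add, PN, add_zero]; exact a3)
    (by rw [Q2, mul_add, QN, add_zero]; exact a4)
    (by rw [Q1, mul_add, add_mul, add_mul, b1, GN', NQ, NN']; abel)
    (by rw [Q1, mul_add, add_mul, add_mul, b2, QN, NG', NN']; abel)
    (by rw [Q0, mul_add, QN, add_zero]; exact b3)
    (by rw [P2, mul_add, PN, add_zero]; exact b4)
  have eq1 : P' 1 * (G' + N) * Q' 1 * (G + N) - P' 1 = P 1 * G' * Q 1 * G - P 1 := by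
    have e1 : P' 1 * (G' + N) = P 1 * G' + N := by
      rw [P1, mul_add, add_mul, add_mul, PN, NG', NN']; abel
    have e2 : Q' 1 * (G + N) = Q 1 * G + N := by
      rw [Q1, mul_add, add_mul, add_mul, QN, NG, NN']; abel
    rw [mul_assoc (P' 1 * (G' + N)), e1, e2, P1, mul_add, add_mul, add_mul, NN',
      mul_assoc (P 1) G' N, GN', mul_zero, ← mul_assoc N (Q 1), NQ, zero_mul,
      ← mul_assoc (P 1 * G')]
    abel
  have eq2 : Ps P' Q' = Ps P Q := rfl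
  rw [eq1, eq2] at key
  exact key

end Pool.Agent.Helper87.RZ
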